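import Mathlib

namespace Pool.Agent.Results.MP_a9f5dc_al.QuotientOfGenusTwo

/-- The action of `a` on the finite words over `{0, 1}` (`false` is `0`, `true` is `1`). -/
def aF : List Bool → List Bool
  | [] => []
  | false :: w => true :: w
  | true :: w => false :: w

mutual
/-- The action of `b`: `b (0 w) = 0 a(w)`, `b (1 w) = 1 c(w)`. -/
def bF : List Bool → List Bool
  | [] => []
  | false :: w => false :: aF w
  | true :: w => true :: cF w
/-- The action of `c`: `c (0 w) = 0 a(w)`, `c (1 w) = 1 d(w)`. -/
def cF : List Bool → List Bool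
  | [] => []
  | false :: w => false :: aF w
  | true :: w => true :: dF w
/-- The action of `d`: `d (0 w) = 0 w`, `d (1 w) = 1 b(w)`. -/
def dF : List Bool → List Bool
  | [] => []
  | false :: w => false :: w
  | true :: w => true :: bF w
end

theorem aa (w : List Bool) : aF (aF w) = w := by
  rcases w with _ | ⟨_ | _, w⟩ <;> simp [aF]

theorem sq (w : List Bool) : bF (bF w) = w ∧ cF (cF w) = w ∧ dF (dF w) = w := by
  induction w with
  | nil => simp [bF, cF, dF]
  | cons x w ih =>
    obtain ⟨h1, h2, h3⟩ := ih
    cases x <;> simp [bF, cF, dF, aa, h1, h2, h3]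

theorem mul_rel (w : List Bool) :
    (bF (dF w) = cF w ∧ cF (dF w) = bF w ∧ bF (cF w) = dF w) ∧
    (dF (bF w) = cF w ∧ dF (cF w) = bF w ∧ cF (bF w) = dF w) := by
  induction w with
  | nil => simp [bF, cF, dF]
  | cons x w ih =>
    obtain ⟨⟨h1, h2, h3⟩, h4, h5, h6⟩ := ih
    cases x <;> simp [bF, cF, dF, aa, h1, h2, h3, h4, h5, h6]

/-- The automorphism `a` of the tree of words. -/
def a : Equiv.Perm (List Bool) := ⟨aF, aF, aa, aa⟩
/-- The automorphism `b` of the tree of words. -/
def b : Equiv.Perm (List Bool) := ⟨bF, bF, fun w => (sq w).1, fun w => (sq w).1⟩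
/-- The automorphism `c` of the tree of words. -/
def c : Equiv.Perm (List Bool) := ⟨cF, cF, fun w => (sq w).2.1, fun w => (sq w).2.1⟩
/-- The automorphism `d` of the tree of words. -/
def d : Equiv.Perm (List Bool) := ⟨dF, dF, fun w => (sq w).2.2, fun w => (sq w).2.2⟩

/-- The first Grigorchuk group, generated by `a`, `b`, `c`, `d`. -/
def Grigorchuk : Subgroup (Equiv.Perm (List Bool)) := Subgroup.closure {a, b, c, d}

/-- The commutator `[x, y] = x y x⁻¹ y⁻¹`. -/
def comm {G : Type} [Group G] (x y : G) : G := x * y * x⁻¹ * y⁻¹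

/-- The fundamental group of the closed orientable surface of genus `g`: generators
`x_i = (i, false)`, `y_i = (i, true)` (`i < g`) and the relation `[x_1, y_1] ... [x_g, y_g] = 1`. -/
abbrev SurfaceGroup (g : ℕ) : Type :=
  PresentedGroup ({((List.finRange g).map fun i =>
    comm (FreeGroup.of (i, false)) (FreeGroup.of (i, true))).prod} :
      Set (FreeGroup (Fin g × Bool)))

theorem bd : b * d = d * b := by
  ext1 w
  change bF (dF w) = dF (bF w)
  rw [(mul_rel w).1.1, (mul_rel w).2.1]

theorem bd_c : b * d = c := by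
  ext1 w
  change bF (dF w) = cF w
  rw [(mul_rel w).1.1]

theorem ha : a ∈ Grigorchuk := Subgroup.subset_closure (by simp)
theorem hb : b ∈ Grigorchuk := Subgroup.subset_closure (by simp)
theorem hd : d ∈ Grigorchuk := Subgroup.subset_closure (by simp)

/-- The images of the generators: `x_1 ↦ b`, `y_1 ↦ d`, `x_2 ↦ a`, `y_2 ↦ 1`. -/
def img : Fin 2 × Bool → Grigorchuk
  | (0, false) => ⟨b, hb⟩
  | (0, true) => ⟨d, hd⟩
  | (1, false) => ⟨a, ha⟩
  | (1, true) => 1

/-- The Grigorchuk group is a quotient of the surface group of genus `2`. -/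
theorem result : ∃ f : SurfaceGroup 2 →* Grigorchuk, Function.Surjective f := by
  have hrel : ∀ r ∈ ({((List.finRange 2).map fun i =>
      comm (FreeGroup.of (i, false)) (FreeGroup.of (i, true))).prod} :
        Set (FreeGroup (Fin 2 × Bool))), FreeGroup.lift img r = 1 := by
    intro r hr
    rw [Set.mem_singleton_iff] at hr
    rw [hr]
    have e : List.finRange 2 = [0, 1] := by decide
    rw [e]
    simp only [List.map_cons, List.map_nil, List.prod_cons, List.prod_nil, mul_one, comm, map_mul,
      map_inv, FreeGroup.lift_apply_of]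
    have h1 : img (0, false) * img (0, true) * (img (0, false))⁻¹ * (img (0, true))⁻¹ = 1 := by
      have h : img (0, false) * img (0, true) = img (0, true) * img (0, false) := by
        apply Subtype.ext
        exact bd
      rw [h]
      group
    have h2 : img (1, false) * img (1, true) * (img (1, false))⁻¹ * (img (1, true))⁻¹ = 1 := by
      simp [img]
    rw [h1, h2, mul_one]
  refine ⟨PresentedGroup.toGroup hrel, ?_⟩
  have hof : ∀ i, img i ∈ (PresentedGroup.toGroup hrel).range := fun i =>
    ⟨PresentedGroup.of i, PresentedGroup.toGroup.of hrel⟩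
  have hle : Grigorchuk ≤ (PresentedGroup.toGroup hrel).range.map Grigorchuk.subtype := by
    unfold Grigorchuk
    rw [Subgroup.closure_le]
    intro x hx
    simp only [Set.mem_insert_iff, Set.mem_singleton_iff] at hx
    rcases hx with rfl | rfl | rfl | rfl
    · exact ⟨img (1, false), hof _, rfl⟩
    · exact ⟨img (0, false), hof _, rfl⟩
    · refine ⟨img (0, false) * img (0, true), Subgroup.mul_mem _ (hof _) (hof _), ?_⟩
      exact bd_c
    · exact ⟨img (0, true), hof _, rfl⟩
  rintro ⟨x, hx⟩
  obtain ⟨y, hy, hyx⟩ := hle hx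
  have : y = ⟨x, hx⟩ := Subtype.ext hyx
  rw [← this]
  exact hy

end Pool.Agent.Results.MP_a9f5dc_al.QuotientOfGenusTwo
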